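import Pool.Agent.J6H91.TZ.Stm

/-!
# TZ-LT: the inequality of Lojasiewicz for the dilations of a zero-free polynomial
-/

set_option autoImplicit false

namespace Pool.Agent.J6H27.TZ.LT

open MvPolynomial Pool.Agent.J6H91.Cyc Pool.Agent.Helper334_SA

variable {ι : Type} {σ : Type}

/-- the real and the imaginary part of a polynomial of complex functions with polynomial real and
imaginary parts -/
theorem pf_re_im (φ : (ι → ℝ) → σ → ℂ) (h1 : ∀ j, PF (fun v => (φ v j).re))
    (h2 : ∀ j, PF (fun v => (φ v j).im)) (P : MvPolynomial σ ℂ) :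
    PF (fun v => (eval (φ v) P).re) ∧ PF (fun v => (eval (φ v) P).im) := by
  induction P using MvPolynomial.induction_on with
  | C a =>
    simp only [eval_C]
    exact ⟨PF.const _, PF.const _⟩
  | add p q hp hq =>
    simp only [map_add, Complex.add_re, Complex.add_im]
    exact ⟨hp.1.add hq.1, hp.2.add hq.2⟩
  | mul_X p j hp =>
    simp only [map_mul, eval_X, Complex.mul_re, Complex.mul_im]
    exact ⟨(hp.1.mul (h1 j)).sub (hp.2.mul (h2 j)), (hp.1.mul (h2 j)).add (hp.2.mul (h1 j))⟩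

theorem pf_normSq (φ : (ι → ℝ) → σ → ℂ) (h1 : ∀ j, PF (fun v => (φ v j).re))
    (h2 : ∀ j, PF (fun v => (φ v j).im)) (P : MvPolynomial σ ℂ) :
    PF (fun v => ‖eval (φ v) P‖ ^ 2) := by
  obtain ⟨h, h'⟩ := pf_re_im φ h1 h2 P
  obtain ⟨q, hq⟩ := (h.mul h).add (h'.mul h')
  refine ⟨q, fun v => ?_⟩
  rw [← hq v]
  change ‖(eval (φ v)) P‖ ^ 2 = _
  rw [Complex.sq_norm, Complex.normSq_apply]

/-- the point of the torus -/
def zz (v : Option (σ ⊕ σ) → ℝ) : σ → ℂ := fun j =>
  ⟨v (some (Sum.inl j)), v (some (Sum.inr j))⟩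

/-- the compact set -/
def K (σ : Type) : Set (Option (σ ⊕ σ) → ℝ) :=
  {v | 0 ≤ v none ∧ v none ≤ 1 ∧
    ∀ j : σ, v (some (Sum.inl j)) ^ 2 + v (some (Sum.inr j)) ^ 2 = 1}

theorem compact_K [Fintype σ] : IsCompact (K σ) := by
  refine Metric.isCompact_of_isClosed_isBounded ?_ ?_
  · refine (isClosed_le continuous_const (continuous_apply _)).inter
      ((isClosed_le (continuous_apply _) continuous_const).inter ?_)
    have : {v : Option (σ ⊕ σ) → ℝ |
        ∀ j : σ, v (some (Sum.inl j)) ^ 2 + v (some (Sum.inr j)) ^ 2 = 1} =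
        ⋂ j : σ, {v | v (some (Sum.inl j)) ^ 2 + v (some (Sum.inr j)) ^ 2 = 1} := by
      ext v; simp
    have h2 : IsClosed {v : Option (σ ⊕ σ) → ℝ |
        ∀ j : σ, v (some (Sum.inl j)) ^ 2 + v (some (Sum.inr j)) ^ 2 = 1} := by
      rw [this]
      refine isClosed_iInter fun j => ?_
      exact isClosed_eq (by fun_prop) continuous_const
    exact h2
  · refine (Metric.isBounded_closedBall (x := (0 : Option (σ ⊕ σ) → ℝ)) (r := 1)).subset ?_
    rintro v ⟨h0, h1, h2⟩
    rw [mem_closedBall_zero_iff, pi_norm_le_iff_of_nonneg zero_le_one]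
    rintro (_ | j | j)
    · rw [Real.norm_eq_abs, abs_le]; constructor <;> linarith
    · rw [Real.norm_eq_abs, abs_le]
      constructor <;> nlinarith [h2 j, sq_nonneg (v (some (Sum.inr j)))]
    · rw [Real.norm_eq_abs, abs_le]
      constructor <;> nlinarith [h2 j, sq_nonneg (v (some (Sum.inl j)))]

theorem sa_K [Fintype σ] : SA (K σ) := by
  have h : SAP (fun v : Option (σ ⊕ σ) → ℝ => 0 ≤ v none ∧ v none ≤ 1 ∧
      ∀ j ∈ (Finset.univ : Finset σ),
        v (some (Sum.inl j)) ^ 2 + v (some (Sum.inr j)) ^ 2 = 1) := by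
    refine (SAP.le PF.zero (PF.coord _)).and ((SAP.le (PF.coord _) PF.one).and
      (SAP.forall_mem _ fun j _ => ?_))
    exact SAP.eq (((PF.coord _).pow 2).add ((PF.coord _).pow 2)) PF.one
  exact h.congr fun v => by simp

theorem norm_zz {v : Option (σ ⊕ σ) → ℝ} (hv : v ∈ K σ) (j : σ) : ‖zz v j‖ = 1 := by
  have h := hv.2.2 j
  have h1 : ‖zz v j‖ ^ 2 = 1 := by
    rw [Complex.sq_norm, Complex.normSq_apply, ← h]
    simp only [zz]; ring
  have h2 := norm_nonneg (zz v j)
  nlinarith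

/-- TZ-LT. -/
theorem main : Pool.Agent.J6H91.TZ.S_LT := by
  intro hL σ _ _ P Q hP hPQ
  obtain ⟨f, hf⟩ : PF (fun v : Option (σ ⊕ σ) → ℝ =>
      ‖eval (fun j => ((v none : ℝ) : ℂ) * zz v j) P‖ ^ 2) := by
    refine pf_normSq _ (fun j => ?_) (fun j => ?_) P
    · simp only [Complex.re_ofReal_mul, zz]
      exact (PF.coord _).mul (PF.coord _)
    · simp only [Complex.im_ofReal_mul, zz]
      exact (PF.coord _).mul (PF.coord _)
  obtain ⟨g, hg⟩ : PF (fun v : Option (σ ⊕ σ) → ℝ => ‖eval (zz v) Q‖ ^ 2) := by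
    refine pf_normSq _ (fun j => ?_) (fun j => ?_) Q
    · simp only [zz]
      exact PF.coord _
    · simp only [zz]
      exact PF.coord _
  have hf' : ∀ v, eval v f = ‖eval (fun j => ((v none : ℝ) : ℂ) * zz v j) P‖ ^ 2 := fun v => by
    exact (hf v).symm
  have hg' : ∀ v, eval v g = ‖eval (zz v) Q‖ ^ 2 := fun v => by
    exact (hg v).symm
  obtain ⟨N, C, hNC⟩ := hL (Option (σ ⊕ σ)) (K σ) f g compact_K sa_K (fun v hv h => by
    rw [hf'] at h
    rw [hg']
    have h0 : eval (fun j => ((v none : ℝ) : ℂ) * zz v j) P = 0 := by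
      rw [← norm_eq_zero]
      exact pow_eq_zero_iff (two_ne_zero) |>.1 h
    have hr : v none = 1 := by
      by_contra hr
      have hr' : v none < 1 := lt_of_le_of_ne hv.2.1 hr
      refine hP _ (fun j => ?_) h0
      rw [norm_mul, norm_zz hv j, mul_one, Complex.norm_real, Real.norm_eq_abs,
        abs_of_nonneg hv.1]
      exact hr'
    have h1 : eval (zz v) P = 0 := by
      rw [← h0, hr]
      simp
    rw [hPQ _ (norm_zz hv) h1]
    simp)
  refine ⟨N, Real.sqrt |C|, fun r h0 h1 z hz => ?_⟩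
  let v : Option (σ ⊕ σ) → ℝ := fun o => match o with
    | none => r
    | some (Sum.inl j) => (z j).re
    | some (Sum.inr j) => (z j).im
  have hzv : zz v = z := by
    funext j
    simp only [zz, v]
  have hv : v ∈ K σ := by
    refine ⟨h0, h1, fun j => ?_⟩
    have := Complex.sq_norm (z j)
    rw [hz j, Complex.normSq_apply] at this
    simp only [v]
    linarith
  have key := hNC v hv
  rw [hf', hg', hzv, abs_of_nonneg (sq_nonneg _), abs_of_nonneg (sq_nonneg _)] at key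
  change (‖eval z Q‖ ^ 2) ^ N ≤ C * ‖eval (fun j => (r : ℂ) * z j) P‖ ^ 2 at key
  set a := ‖eval z Q‖
  set b := ‖eval (fun j => (r : ℂ) * z j) P‖
  have ha : 0 ≤ a ^ N := pow_nonneg (norm_nonneg _) _
  have hb : 0 ≤ b := norm_nonneg _
  have hC : 0 ≤ Real.sqrt |C| := Real.sqrt_nonneg _
  have hC2 : Real.sqrt |C| ^ 2 = |C| := Real.sq_sqrt (abs_nonneg _)
  refine abs_le_of_sq_le_sq' ?_ (mul_nonneg hC hb) |>.2
  calc (a ^ N) ^ 2 = (a ^ 2) ^ N := by rw [← pow_mul, ← pow_mul, mul_comm]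
    _ ≤ C * b ^ 2 := key
    _ ≤ |C| * b ^ 2 := mul_le_mul_of_nonneg_right (le_abs_self _) (sq_nonneg _)
    _ = (Real.sqrt |C| * b) ^ 2 := by rw [mul_pow, hC2]

end Pool.Agent.J6H27.TZ.LT
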